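import Pool.Agent.Y720.WG.T15

/-!
# Rational points on conic bundles over the plane with a discriminant of degree nine (helper720)

`K` is a number field and `X` is a hypersurface of bidegree `(2, 3)` in `ℙ² × ℙ²`, given in affine
coordinates by a polynomial `F(x₁, x₂; y₁, y₂)` of degree at most two in `x` and at most three in
`y`. The second projection makes `X` a conic bundle over the plane whose discriminant is a curve of
degree nine; it is rationally connected. The first projection is a fibration in plane cubics.
Suppose that `X` has a rational point `P₀`, which we take as the origin. Under explicit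
nondegeneracy conditions, which hold outside a proper closed subset, we show that the rational
points of `X` are Zariski dense, without extending the field.

Idea of the proof. The rational point moves on the conic `C : F(x, 0) = 0`, a rational curve. Over
`C` we have a family of plane cubics with a section, the point `0`. The tangent at a point
of a plane cubic meets it in a second rational point, so there is a divisor of degree zero on the
generic cubic over `K(C)`. It is a point of infinite order: at a flex the two points collide, so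
the section has a zero there, and the elliptic curve has good enough reduction to
conclude that it is not a torsion point. We approximate: embed `K(C)` into the complex numbers; the
multiples of the point accumulate at the origin of the elliptic curve, so the generic cubic has
infinitely many points near the origin, whose slopes are transcendental over `K` and so avoid every
curve over `K`. Specialization to rational points of `C` gives points `y` of the plane, outside a
given curve, for which the conic over `y` has a smooth rational point.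

The same holds for the hypersurfaces of bidegree `(2, 3)` in `ℙᵐ × ℙⁿ`, which are bundles of
quadrics over `ℙⁿ`, if one section by a product of planes through the point is nondegenerate.
Nondegeneracy is an open condition; we state this for pencils.
-/

set_option autoImplicit false

namespace Pool.Agent.Results.MP_b62148_ag.ConicBundlesDegreeNine

universe u v w

/-- The monomials of degree at most two in two variables. -/
def quadrics {R : Type v} [CommRing R] (x₁ x₂ : R) : Fin 6 → R :=
  ![1, x₁, x₂, x₁ ^ 2, x₁ * x₂, x₂ ^ 2]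

/-- The monomials of degree at most three in two variables. -/
def cubics {R : Type v} [CommRing R] (y₁ y₂ : R) : Fin 10 → R :=
  ![1, y₁, y₂, y₁ ^ 2, y₁ * y₂, y₂ ^ 2, y₁ ^ 3, y₁ ^ 2 * y₂, y₁ * y₂ ^ 2, y₂ ^ 3]

/-- The polynomial `F(x₁, x₂; y₁, y₂)` with the coefficients `c`; the variables of index
`0, 1, 2, 3` are `x₁, x₂, y₁, y₂`. -/
noncomputable def poly {K : Type u} [Field K] (c : Fin 6 → Fin 10 → K) :
    MvPolynomial (Fin 4) K :=
  ∑ i, ∑ k, MvPolynomial.C (c i k) * quadrics (MvPolynomial.X 0) (MvPolynomial.X 1) i *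
    cubics (MvPolynomial.X 2) (MvPolynomial.X 3) k

/-- The coefficients of the cubic polynomial `F(x, ·)` at the point `x = (x₁, x₂)`. -/
def fibre {K : Type u} [Field K] (c : Fin 6 → Fin 10 → K) {L : Type v} [Field L] [Algebra K L]
    (x₁ x₂ : L) (k : Fin 10) : L :=
  ∑ i, algebraMap K L (c i k) * quadrics x₁ x₂ i

/-- The quadratic part of the cubic with the coefficients `e` at the tangent vector
`(e₂, -e₁)` at the origin. It vanishes if the origin is a flex. -/
def flex {L : Type v} [Field L] (e : Fin 10 → L) : L :=
  e 3 * e 2 ^ 2 - e 4 * e 1 * e 2 + e 5 * e 1 ^ 2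

/-- The cubic part of the cubic with the coefficients `e` at the tangent vector `(e₂, -e₁)`. -/
def cubicPart {L : Type v} [Field L] (e : Fin 10 → L) : L :=
  e 6 * e 2 ^ 3 - e 7 * e 2 ^ 2 * e 1 + e 8 * e 2 * e 1 ^ 2 - e 9 * e 1 ^ 3

/-- The discriminant of the intersection of the cubic with the coefficients `e` with the line
`y₂ = m y₁`, apart from the origin, as a polynomial in the slope `m`. -/
noncomputable def tangents {K : Type u} [Field K] (e : Fin 10 → K) : Polynomial K :=
  (.C (e 3) + .C (e 4) * .X + .C (e 5) * .X ^ 2) ^ 2 -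
    4 * ((.C (e 1) + .C (e 2) * .X) *
      (.C (e 6) + .C (e 7) * .X + .C (e 8) * .X ^ 2 + .C (e 9) * .X ^ 3))

/-- The nondegeneracy of `F` at the origin. -/
structure Nondegenerate {K : Type u} [Field K] (c : Fin 6 → Fin 10 → K) : Prop where
  /-- The conic `F(x, 0) = 0` is smooth and passes through the origin; the coordinates and `F` are
  normalised such that its equation is `x₂ + c₃₀ x₁² + c₄₀ x₁ x₂ + c₅₀ x₂² = 0`. -/
  conic : c 0 0 = 0 ∧ c 1 0 = 0 ∧ c 2 0 = 1 ∧ c 3 0 ≠ 0
  /-- The tangent of the cubic `F(0, y) = 0` at the origin is not `y₁ = 0`, and the origin is not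
  a flex of this cubic. -/
  point : c 0 2 ≠ 0 ∧ flex (c 0) ≠ 0
  /-- The cubic `F(0, y) = 0` is smooth: there are four different tangents through the origin
  (at most one of them is `y₁ = 0`). -/
  smooth : (tangents (c 0)).Separable ∧ 3 ≤ (tangents (c 0)).natDegree
  /-- The tangent at the origin of the cubics `F(x, ·) = 0`, for `x` on the conic, varies. -/
  direction : ∃ x₁ x₂ : AlgebraicClosure K, x₁ ≠ 0 ∧ fibre c x₁ x₂ 0 = 0 ∧
    fibre c x₁ x₂ 1 * algebraMap K (AlgebraicClosure K) (c 0 2) ≠
      algebraMap K (AlgebraicClosure K) (c 0 1) * fibre c x₁ x₂ 2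
  /-- For some `x` on the conic, the origin is a flex of the cubic `F(x, ·) = 0` (whose
  tangent is not `y₁ = 0` and is not contained in the cubic). -/
  flexes : ∃ x₁ x₂ : AlgebraicClosure K, x₁ ≠ 0 ∧ fibre c x₁ x₂ 0 = 0 ∧ fibre c x₁ x₂ 2 ≠ 0 ∧
    flex (fibre c x₁ x₂) = 0 ∧ cubicPart (fibre c x₁ x₂) ≠ 0

/-- An example: `x₁² + x₂ + x₂² y₁³ + y₂ + x₁ y₁ + (1 - x₁) y₁² + y₁ y₂²`. -/
def sample (K : Type u) [Field K] : Fin 6 → Fin 10 → K :=
  ![![0, 0, 1, 1, 0, 0, 0, 0, 1, 0], ![0, 1, 0, -1, 0, 0, 0, 0, 0, 0],
    ![1, 0, 0, 0, 0, 0, 0, 0, 0, 0], ![1, 0, 0, 0, 0, 0, 0, 0, 0, 0],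
    ![0, 0, 0, 0, 0, 0, 0, 0, 0, 0], ![0, 0, 0, 0, 0, 0, 1, 0, 0, 0]]

/-- The point with the coordinates `x₀ = s`, `x_i = t u_i` and `y_j = a w_j + b w'_j`; the index
`none` stands for `x₀`. So `(s, t)` are coordinates of the plane of the `x`-space spanned by `x₀` and
`u`, and `(a, b)` are coordinates of the plane of the `y`-space spanned by `w` and `w'`. -/
def planePoint {K : Type u} [Field K] {α : Type v} {β : Type w} (u : α → K) (w w' : β → K)
    (s t a b : K) : Option (α ⊕ β) → K :=
  fun o => o.elim s (Sum.elim (fun i => t * u i) (fun j => a * w j + b * w' j))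

/-- The member `(1 - τ) F₀ + τ F` of the pencil spanned by the example `F₀` and `F`. -/
def pencil {K : Type u} [Field K] (c : Fin 6 → Fin 10 → K) (τ : K) : Fin 6 → Fin 10 → K :=
  fun i k => (1 - τ) * sample K i k + τ * c i k

lemma sample_nondegenerate (K : Type u) [Field K] [NumberField K] : Nondegenerate (sample K) := by
  refine ⟨?_, ?_, ?_, ?_, ?_⟩
  · simp [sample]
  · constructor
    · simp [sample]
    · simp [sample, flex]
  · have e1 : tangents (sample K 0) = 1 - 4 * Polynomial.X ^ 3 := by
      simp [tangents, sample]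
      ring
    have h4 : (4 : K) ≠ 0 := by norm_num
    have h3 : (3 : K) ≠ 0 := by norm_num
    have e2 : (1 - 4 * Polynomial.X ^ 3 : Polynomial K) =
        Polynomial.C (-4) * Polynomial.X ^ 3 + Polynomial.C 1 := by
      simp only [map_neg, map_ofNat, map_one]; ring
    rw [e1]
    constructor
    · rw [Polynomial.separable_def']
      refine ⟨1, -(Polynomial.C (3 : K)⁻¹ * Polynomial.X), ?_⟩
      have e3 : Polynomial.derivative (1 - 4 * Polynomial.X ^ 3 : Polynomial K) =
          -(Polynomial.C (12 : K) * Polynomial.X ^ 2) := by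
        rw [e2]
        have e5 : (Polynomial.C (12 : K) : Polynomial K) = Polynomial.C 4 * Polynomial.C 3 := by
          rw [← Polynomial.C_mul]; norm_num
        rw [e5]
        simp only [Polynomial.derivative_add, Polynomial.derivative_C_mul,
          Polynomial.derivative_X_pow, Polynomial.derivative_C]
        simp
        ring
      rw [e3]
      have e4 : (Polynomial.C (3 : K)⁻¹ * Polynomial.C (12 : K) : Polynomial K) = 4 := by
        rw [← Polynomial.C_mul, show (3 : K)⁻¹ * 12 = 4 by norm_num, map_ofNat]
      linear_combination Polynomial.X ^ 3 * e4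
    · rw [e2, Polynomial.natDegree_add_C, Polynomial.natDegree_C_mul_X_pow 3 (-4 : K)
        (neg_ne_zero.2 h4)]
  · refine ⟨1, -1, one_ne_zero, ?_, ?_⟩
    · simp [fibre, sample, quadrics, Fin.sum_univ_succ, Fin.succ]
    · simp [fibre, sample, quadrics, Fin.sum_univ_succ, Fin.succ]
  · refine ⟨1, -1, one_ne_zero, ?_, ?_, ?_, ?_⟩
    · simp [fibre, sample, quadrics, Fin.sum_univ_succ, Fin.succ]
    · simp [fibre, sample, quadrics, Fin.sum_univ_succ, Fin.succ]
    · simp [flex, fibre, sample, quadrics, Fin.sum_univ_succ, Fin.succ]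
    · simp [cubicPart, fibre, sample, quadrics, Fin.sum_univ_succ, Fin.succ]

lemma Nondegenerate.gd {K : Type u} [Field K] [NumberField K] {c : Fin 6 → Fin 10 → K}
    (hc : Nondegenerate c) : Pool.Agent.Y720.MZ.Gd c := by
  obtain ⟨⟨h0, h1, h2, h3⟩, ⟨hg, hfl⟩, ⟨hs, hd⟩, hdir, hflex⟩ := hc
  exact Pool.Agent.Y720.MZ.gd_of c h0 h1 h2 h3 hg hfl hs hd hdir hflex

lemma Nondegenerate.dT {K : Type u} [Field K] {c : Fin 6 → Fin 10 → K}
    (hc : Nondegenerate c) : Pool.Agent.Y720.MZ.dT (c 0) ≠ 0 :=
  Pool.Agent.Y720.MZ.dT_of_tan (c 0) hc.smooth.1 hc.smooth.2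

lemma Nondegenerate.irreducible {K : Type u} [Field K] [CharZero K] {c : Fin 6 → Fin 10 → K}
    (hc : Nondegenerate c) : Irreducible (poly c) :=
  Pool.Agent.Y720.MZ.irr_of c hc.conic.1 hc.conic.2.1 hc.conic.2.2.1 hc.conic.2.2.2
    hc.point.1 hc.dT

/-- **Zariski density of the rational points on conic bundles over the plane with a discriminant
of degree nine.** -/
theorem result :
    -- (1) hypersurfaces of bidegree `(2, 3)` in `ℙ² × ℙ²`
    (∀ (K : Type u) [Field K] [NumberField K] (c : Fin 6 → Fin 10 → K), Nondegenerate c →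
      Irreducible (poly c) ∧ ∀ G : MvPolynomial (Fin 4) K,
        (∀ v : Fin 4 → K, MvPolynomial.eval v (poly c) = 0 → MvPolynomial.eval v G = 0) →
          poly c ∣ G) ∧
    -- (2) hypersurfaces of bidegree `(2, 3)` in a product of two spaces of any dimensions: the
    -- polynomial `C i k` of `(u, w, w')` is the coefficient of the section of `F` by the planes
    -- spanned by `e₀, u` and by `w, w'`, and the linear part of `F(x, 0)` is the coordinate `i₀`
    (∀ (K : Type u) [Field K] [NumberField K] (α : Type v) (β : Type w) (i₀ : α)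
      (F : MvPolynomial (Option (α ⊕ β)) K) (C : Fin 6 → Fin 10 → MvPolynomial (α ⊕ (β ⊕ β)) K),
      Irreducible F →
      (∀ (u : α → K) (w w' : β → K) (s t a b : K),
        MvPolynomial.eval (planePoint u w w' s t a b) F = MvPolynomial.eval ![s, t, a, b]
          (poly fun i k => MvPolynomial.eval (Sum.elim u (Sum.elim w w')) (C i k))) →
      C 0 0 = 0 → C 1 0 = 0 → C 2 0 = MvPolynomial.X (Sum.inl i₀) →
      ∀ (u : α → K) (w w' : β → K),
        Nondegenerate (fun i k => MvPolynomial.eval (Sum.elim u (Sum.elim w w')) (C i k)) →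
          ∀ G : MvPolynomial (Option (α ⊕ β)) K,
            (∀ z, MvPolynomial.eval z F = 0 → MvPolynomial.eval z G = 0) → F ∣ G) ∧
    -- (3) the conditions of (1) are satisfied by an example, and the conclusion holds for all but
    -- finitely many members of every pencil which contains it
    (∀ (K : Type u) [Field K] [NumberField K], Nondegenerate (sample K) ∧
      ∀ c : Fin 6 → Fin 10 → K, c 0 0 = 0 → c 1 0 = 0 → c 2 0 = 1 →
        ∃ E : Set K, E.Finite ∧ ∀ τ ∉ E, Irreducible (poly (pencil c τ)) ∧
          ∀ G : MvPolynomial (Fin 4) K,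
            (∀ v : Fin 4 → K, MvPolynomial.eval v (poly (pencil c τ)) = 0 →
              MvPolynomial.eval v G = 0) → poly (pencil c τ) ∣ G) := by
  refine ⟨?_, ?_, ?_⟩
  · intro K _ _ c hc
    have hirr := hc.irreducible
    obtain ⟨⟨h0, h1, h2, h3⟩, ⟨hg, hfl⟩, ⟨hs, hd⟩, hdir, hflex⟩ := hc
    exact ⟨hirr, fun G hG =>
      Pool.Agent.Y720.MZ.density c h0 h1 h2 h3 hirr hg hfl hs hd hdir hflex hG⟩
  · intro K _ _ α β i₀ F C hF hP hC0 hC1 hC2 u w w' hc G hG
    have hu : u i₀ = 1 := by
      have h := hc.conic.2.2.1
      rw [hC2, MvPolynomial.eval_X] at h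
      exact h
    refine Pool.Agent.Y720.MZ.density_one i₀ C hF (fun u w w' s t a b => ?_) hC0 hC1 hC2 hu
      hc.gd hG
    exact (hP u w w' s t a b).trans (Pool.Agent.Y720.MZ.polyF_eval _ ![s, t, a, b])
  · intro K _ _
    refine ⟨sample_nondegenerate K, ?_⟩
    intro c h0 h1 h2
    have e : (fun i k => ((1 - Polynomial.X) * Polynomial.C (sample K i k) +
        Polynomial.X * Polynomial.C (c i k) : Polynomial K).eval 0) = sample K := by
      funext i k
      simp
    obtain ⟨r, hr, hrg⟩ := Pool.Agent.Y720.MZ.line_good (K := K) (fun i k =>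
      (1 - Polynomial.X) * Polynomial.C (sample K i k) + Polynomial.X * Polynomial.C (c i k)) (by
        rw [e]
        exact (sample_nondegenerate K).gd)
    obtain ⟨r', hr', hrg'⟩ := Pool.Agent.Y720.MZ.line_irr (K := K) (fun i k =>
      (1 - Polynomial.X) * Polynomial.C (sample K i k) + Polynomial.X * Polynomial.C (c i k))
      (by
        have := (sample_nondegenerate K).point.1
        rw [← e] at this
        exact this)
      (by
        have := (sample_nondegenerate K).dT
        rw [← e] at this
        exact this)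
    refine ⟨{τ | (r * r').eval τ = 0}, Polynomial.finite_setOfPred_isRoot (mul_ne_zero hr hr'),
      fun τ hτ => ?_⟩
    have hτ' : (r * r').eval τ ≠ 0 := hτ
    rw [Polynomial.eval_mul] at hτ'
    have hgd := hrg τ (left_ne_zero_of_mul hτ')
    have hgd' := hrg' τ (right_ne_zero_of_mul hτ')
    have e : (fun i k => ((1 - Polynomial.X) * Polynomial.C (sample K i k) +
        Polynomial.X * Polynomial.C (c i k) : Polynomial K).eval τ) = pencil c τ := by
      funext i k
      simp [pencil]
      ring
    rw [e] at hgd
    have g0 : pencil c τ 0 0 = 0 := by simp [pencil, sample, h0]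
    have g1 : pencil c τ 1 0 = 0 := by simp [pencil, sample, h1]
    have g2 : pencil c τ 2 0 = 1 := by simp [pencil, sample, h2]
    have g3 : pencil c τ 0 2 ≠ 0 := by rw [← e]; exact hgd'.1
    have g4 : Pool.Agent.Y720.MZ.dT (pencil c τ 0) ≠ 0 := by rw [← e]; exact hgd'.2
    have hirr : Irreducible (poly (pencil c τ)) :=
      Pool.Agent.Y720.MZ.irr_of _ g0 g1 g2 hgd.h3 g3 g4
    exact ⟨hirr, fun G hG => Pool.Agent.Y720.MZ.div_of_pt _ g0 g1 g2 hgd.h3 hirr
      (fun ρ hρ => hgd.pt g0 g1 g2 hρ) hG⟩

end Pool.Agent.Results.MP_b62148_ag.ConicBundlesDegreeNine
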