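import Pool.Agent.Y742.HC.FinL

/-!
# Density of rational points on varieties with conic fibrations without common invariants

Let `X` be a variety over a field `k` of characteristic zero (a number field) which has conic
fibrations `X ⇢ B_i` (`M i` is the function field of `B_i`) such that only the constants are
algebraic over all the `M i`. Then there is a dense open set `V` of `X` such that, for every
extension `L` of `k`, the `L`-points of `X` are dense as soon as one of them is in `V`; and this
happens for some finite extension `L` of `k`.
-/

set_option autoImplicit false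

namespace Pool.Agent.Results.MP_b62148_ag.ConicFibrations

open AlgebraicGeometry CategoryTheory W560.HP Pool.Agent.Y742.HC
open Pool.Agent.TH178.HI (IsConicOver HasFunctionField)

theorem result (k : Type) [Field k] [CharZero k] (K : Type) [Field K] [Algebra k K]
    (X : Scheme.{0}) (p : X ⟶ Spec (CommRingCat.of k)) [IsIntegral X] [LocallyOfFiniteType p]
    (hX : HasFunctionField k X p K) {m : ℕ} (M : Fin m → IntermediateField k K)
    (hM : ∀ i, IsConicOver (M i))
    (hinv : ∀ a : K, (∀ i, IsAlgebraic (M i) a) → a ∈ Set.range (algebraMap k K)) :
    (∃ V : X.Opens, (V : Set X).Nonempty ∧ ∀ (L : Type) [Field L] [Algebra k L],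
      HasPointIn X p V L → DensePointsOver X p L) ∧
    ∃ (L : Type) (_ : Field L) (_ : Algebra k L) (_ : FiniteDimensional k L),
      DensePointsOver X p L := by
  have h := goodL_conics (sFgs k X p K hX) M hM hinv
  obtain ⟨V, hV, h1⟩ := h.opens X p hX
  exact ⟨⟨V, hV, fun L _ _ => ((h1 L).out 0 1).1⟩, h.potential X p hX⟩

end Pool.Agent.Results.MP_b62148_ag.ConicFibrations
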