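import Pool.Agent.Y200.CY.FinalG

/-!
# Potential density of smooth hypersurfaces of low degree in products of projective spaces
-/

set_option autoImplicit false

open MvPolynomial AlgebraicGeometry CategoryTheory
open Pool.Agent.W572 Pool.Agent.W572.G Pool.Agent.Y200.CY

namespace Pool.Agent.Results.MP_b62148_ag.LowDegreeProducts

/-- Let `X` be a smooth hypersurface `F = 0` of multidegree `d` in the product of at least two
projective spaces of the dimensions `n i`, over a number field `k₀`, where `1 ≤ d i ≤ 3` and
`d i ≤ n i + 1` for all `i`, and `d i ≤ n i` for some `i` (so that `X` is rationally connected). If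
all `d j` are three, except for one `i` with `n i = 1` and `d i = 2`, so that
`F = A S² + B S T + C T²` in the coordinates `S`, `T` of this line, then we suppose that `A`, `B`,
`C` are linearly independent (that is, the second derivatives `2 A`, `B`, `2 C` are linearly
independent). Then every scheme over `k₀` which is dominated by `X` is potentially dense.

Here `Pc n` is the set of the homogeneous coordinates, `PHom d F` says that `F` is homogeneous of
degree `d i` in the coordinates of the factor `i`, `PNZ z` says that `z` is nonzero in each factor,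
`PAf n` is the set of the affine coordinates (all but the first of each factor) and `pdeh e F` is
the affine equation `F(1, x) = 0`, for a numbering `e` of the affine coordinates. -/
theorem result (k₀ : Type) [Field k₀] [NumberField k₀] {ι : Type} [Fintype ι] [DecidableEq ι]
    (n d : ι → ℕ) (h2 : 2 ≤ Fintype.card ι) (hn : ∀ i, 1 ≤ n i) (hd : ∀ i, 1 ≤ d i ∧ d i ≤ 3)
    (hnef : ∀ i, d i ≤ n i + 1) (_hrc : ∃ i, d i ≤ n i)
    (F : MvPolynomial (Pc n) k₀) (hF : PHom d F)
    (hex : ∀ i, d i = 2 → n i = 1 → (∀ j, j ≠ i → d j = 3) →
      LinearIndependent k₀ ![pderiv ⟨i, 0⟩ (pderiv ⟨i, 0⟩ F),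
        pderiv ⟨i, 0⟩ (pderiv ⟨i, Fin.last _⟩ F),
        pderiv ⟨i, Fin.last _⟩ (pderiv ⟨i, Fin.last _⟩ F)])
    (hsmooth : ∀ z : Pc n → AlgebraicClosure k₀, PNZ z → aeval z F = 0 →
      ∃ s, aeval z (pderiv s F) ≠ 0)
    {N : ℕ} (e : PAf n ≃ Fin N) {X : Scheme.{0}} (sX : X ⟶ Spec (.of k₀))
    (f : (hypersurface (pdeh e F)).PartialMap X) (hf : IsDominant f.hom)
    (hfk : f.hom ≫ sX = f.domain.ι ≫ hypersurfaceStr (pdeh e F)) :
    PotentiallyDense sX := by
  have hne : Nonempty ι := Fintype.card_pos_iff.1 (by omega)
  refine finalG k₀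
    (Pool.Agent.Y742.GG.fg_of_numberField k₀) n d (fun i => by have := hn i; omega)
    (fun i => by have := hd i; omega) (fun i => (hd i).2) (fun i hi => by have := hnef i; omega)
    (fun i => ?_) e F hF hex hsmooth sX f hf hfk
  by_contra hcon
  push Not at hcon
  have : Subsingleton ι := ⟨fun a b => (hcon a).trans (hcon b).symm⟩
  have := Fintype.card_le_one_iff_subsingleton.2 this
  omega

end Pool.Agent.Results.MP_b62148_ag.LowDegreeProducts
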