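import Pool.Agent.Y720.WA.Den6

/-!
# Zariski density of the rational points of quadric bundles over products of projective spaces
(helper720)

`K` is a number field and `X` is a double cover `w² = f(y, x₁, …, x_m)`, where `f` is a polynomial
(or a multihomogeneous form) of degree at most `2` in the block of variables `y` and of degree at
most `4` in each of the blocks `x₁, …, x_m`. So `X` is a bundle of quadrics over the product of
the affine (or projective) spaces of the `x_j`, and it is rationally connected. The simplest cases
are the conic bundles over `ℙ¹` with eight degenerate fibres `w² = A(x) y² + B(x) y + C(x)` with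
quartic `A, B, C`, and the conic bundles over `(ℙ¹)ᵐ` with a discriminant of multidegree
`(8, …, 8)`. We show, without extending the field, that the rational points of `X` are Zariski
dense as soon as there is a single nondegenerate one.

Idea of the proof. A rational point moves on a conic of its fibre. Through the points of this conic
there are the curves of genus one `w² = quartic` in the direction of `x_j`. On each of them the
difference of the two points over the given one is a rational point of the Jacobian. Some prime
`𝔭` of `K` and some rational points `P_k` of the conic, close to the given point, are such that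
`w(P_k)` is divisible by a high power of `𝔭`. Then this difference is `𝔭`-adically
close to the origin, hence of infinite order, and its multiples accumulate at the origin. So a
polynomial which vanishes at the rational points close to the given one vanishes on a plane. This
applies to all rational points nearby, and all its translates vanish there as well.
-/

set_option autoImplicit false

namespace Pool.Agent.Results.MP_b62148_ag.QuadricBundlesDensity

open Pool.Agent.Y720.MZ Matrix

universe u v w

/-- Nondegeneracy of the point `(z, w)` of `w² = f(z)` with respect to the directions `v`, `e`.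
Let `A(X) = f(z + X v)` and let `B(X)` be the derivative of `f` in the direction `e` at
`z + X v`. Either the conic `w² = A(X)` is smooth and `B` is not a multiple of `A`; or the conic is
a pair of different lines and the derivative of the discriminant `A₁² - 4 A₀ A₂` in the direction
`e` is not zero. -/
def Nondegenerate {K : Type u} [Field K] {α : Type v} [Fintype α] (f : MvPolynomial α K)
    (z : α → K) (w : K) (v e : α → K) : Prop :=
  ∀ A B : Polynomial K,
    A = MvPolynomial.aeval (fun i => Polynomial.C (z i) + Polynomial.C (v i) * Polynomial.X) f →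
    B = MvPolynomial.aeval (fun i => Polynomial.C (z i) + Polynomial.C (v i) * Polynomial.X)
      (∑ i, MvPolynomial.C (e i) * MvPolynomial.pderiv i f) →
    (A.coeff 1 ^ 2 ≠ 4 * A.coeff 0 * A.coeff 2 ∧ ¬∃ r : K, B = Polynomial.C r * A) ∨
    (w ≠ 0 ∧ A.coeff 1 ^ 2 = 4 * A.coeff 0 * A.coeff 2 ∧
      2 * A.coeff 0 * B.coeff 2 - A.coeff 1 * B.coeff 1 + 2 * A.coeff 2 * B.coeff 0 ≠ 0)

/-- In every neighbourhood of `(z₀, w₀)`, for every nontrivial absolute value, the rational points
of `w² = f(z)` are Zariski dense: a polynomial in `w` and `z` which vanishes at all of them is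
divisible by `w² - f(z)`. -/
def DenseNear {K : Type u} [Field K] {α : Type v} (f : MvPolynomial α K) (z₀ : α → K) (w₀ : K) :
    Prop :=
  ∀ ν : AbsoluteValue K ℝ, ν.IsNontrivial → ∀ ε : ℝ, 0 < ε → ∀ g : MvPolynomial (Option α) K,
    (∀ (z : α → K) (w : K), w ^ 2 = MvPolynomial.eval z f → (∀ i, ν (z i - z₀ i) < ε) →
      ν (w - w₀) < ε → MvPolynomial.eval (fun o => o.elim w z) g = 0) →
    (MvPolynomial.X none ^ 2 - MvPolynomial.rename some f) ∣ g

/-- The form `ᵗy M(x) y`. -/
noncomputable def form {K : Type u} [Field K] {N n : ℕ}
    (M : Matrix (Fin N) (Fin N) (MvPolynomial (Fin n) K)) : MvPolynomial (Fin N ⊕ Fin n) K :=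
  ∑ a, ∑ b, MvPolynomial.X (Sum.inl a) * MvPolynomial.X (Sum.inl b) *
    MvPolynomial.rename Sum.inr (M a b)

/-- The matrix `M` at the point `x`. -/
noncomputable def value {K : Type u} [Field K] {N n : ℕ}
    (M : Matrix (Fin N) (Fin N) (MvPolynomial (Fin n) K)) (x : Fin n → K) :
    Matrix (Fin N) (Fin N) K :=
  M.map (MvPolynomial.eval x)

/-- The partial derivative of the matrix `M` at the point `x`. -/
noncomputable def slope {K : Type u} [Field K] {N n : ℕ}
    (M : Matrix (Fin N) (Fin N) (MvPolynomial (Fin n) K)) (x : Fin n → K) (j : Fin n) :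
    Matrix (Fin N) (Fin N) K :=
  M.map fun p => MvPolynomial.eval x (MvPolynomial.pderiv j p)

/-- **Density of rational points on quadric bundles.** -/
theorem result :
    -- (1) quadric bundles over products of spaces: `c i = none` for the variables `y`, and
    -- `c i = some j` for the variables `x_j`
    (∀ (K : Type u) [Field K] [NumberField K] (α : Type v) (κ : Type w) [Fintype α]
      [DecidableEq α] [Finite κ] [DecidableEq κ] [Nonempty κ] (c : α → Option κ)
      (f : MvPolynomial α K), ¬IsSquare f →
      (∀ d ∈ f.support, ∑ i with c i = none, d i ≤ 2) →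
      (∀ j, ∀ d ∈ f.support, ∑ i with c i = some j, d i ≤ 4) →
      ∀ (z₀ : α → K) (w₀ : K), w₀ ^ 2 = MvPolynomial.eval z₀ f →
      (∀ j, ∃ v e : α → K, (∀ i, c i ≠ none → v i = 0) ∧ (∀ i, c i ≠ some j → e i = 0) ∧
        Nondegenerate f z₀ w₀ v e) → DenseNear f z₀ w₀) ∧
    -- (2) double covers `w² = ᵗy M(x) y` of `ℙᴺ⁻¹ × ℙⁿ⁻¹` branched along divisors of bidegree
    -- `(2, 4)`: the rational point is a smooth point of its fibre over `x`, `X` is smooth at the
    -- rational points over `x`, and `M` is not stationary at `x`
    (∀ (K : Type u) [Field K] [NumberField K] (N n : ℕ), 2 ≤ N →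
      ∀ M : Matrix (Fin N) (Fin N) (MvPolynomial (Fin n) K), M.IsSymm →
      (∀ a b, (M a b).totalDegree ≤ 4) →
      ∀ (w : K) (y : Fin N → K) (x : Fin n → K), w ^ 2 = y ⬝ᵥ value M x *ᵥ y →
      (w ≠ 0 ∨ value M x *ᵥ y ≠ 0) →
      (∀ v : Fin N → K, v ≠ 0 → value M x *ᵥ v = 0 → ∃ j, v ⬝ᵥ slope M x j *ᵥ v ≠ 0) →
      ((value M x).det ≠ 0 → ∃ j, ¬∃ r : K, slope M x j = r • value M x) →
      DenseNear (form M) (Sum.elim y x) w) := by
  refine ⟨?_, ?_⟩
  · intro K _ _ α κ _ _ _ _ _ c f hsq hy hx z₀ w₀ hzw hnd ν hν ε hε g hg
    refine density_abs c hsq hy hx hzw (fun j => ?_) ν hν hε hg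
    obtain ⟨v, e, h1, h2, h3⟩ := hnd j
    exact ⟨v, e, h1, h2, h3 _ _ rfl rfl⟩
  · intro K _ _ N n hN M hsym hM w₀ y₀ x₀ hzw hw hs hφ ν hν ε hε g hg
    obtain ⟨L, _, _, σ, hσ, hn⟩ := exists_completion ν hν
    have : CharZero L := charZero_of_injective_ringHom σ.injective
    have : ProperSpace L := Pool.Agent.W279.Tri.properSpace_of_denseRange σ hσ
    refine smooth_density σ hσ hN M (fun a b => hsym.apply b a) hM (y := y₀) (x := x₀)
      (w := w₀) hzw hw hs hφ
      (U := Metric.ball ((fun i => σ (Sum.elim y₀ x₀ i)), σ w₀) ε)
      (Metric.ball_mem_nhds _ hε) (g := g) ?_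
    intro z w h1 h2
    rw [Metric.mem_ball, Prod.dist_eq] at h2
    obtain ⟨h3, h4⟩ := max_lt_iff.1 h2
    rw [dist_pi_lt_iff hε] at h3
    rw [dist_eq_norm, ← map_sub, hn] at h4
    exact hg z w h1 (fun i => by
      have := h3 i
      rwa [dist_eq_norm, ← map_sub, hn] at this) h4

end Pool.Agent.Results.MP_b62148_ag.QuadricBundlesDensity
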